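import Mathlib

open MeasureTheory Set Cardinal

namespace Pool.Agent.Results.MP_8b9ec4_lc.NoPartition

/-- Naively Haar null subsets of a group with a measurable structure. -/
def NaiveNull {G : Type} [Group G] [MeasurableSpace G] (X : Set G) : Prop :=
  ∃ μ : Measure G, IsProbabilityMeasure μ ∧ ∀ g h : G, μ ((fun x => g * x * h) '' X) = 0

/-- The least cardinality of a non-null subset of the unit interval. -/
noncomputable def nonN : Cardinal := sInf {c | ∃ A : Set unitInterval, volume A ≠ 0 ∧ #A = c}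

/-- The least cardinality of a family of null sets covering the unit interval. -/
noncomputable def covN : Cardinal :=
  sInf {c | ∃ F : Set (Set unitInterval), (∀ Z ∈ F, volume Z = 0) ∧ ⋃₀ F = Set.univ ∧ #F = c}

/-- If some Polish group splits into two naively Haar null sets then cov(N) is at most non(N). -/
theorem result (G : Type) [Group G] [TopologicalSpace G] [IsTopologicalGroup G] [PolishSpace G]
    [MeasurableSpace G] [BorelSpace G] (S : Set G) (h1 : NaiveNull S) (h2 : NaiveNull Sᶜ) :
    covN ≤ nonN := by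
  obtain ⟨μ, _, hμ⟩ := h1
  obtain ⟨ν, _, hν⟩ := h2
  obtain ⟨f, mf, rfl⟩ := μ.exists_measurable_map_eq
  obtain ⟨g, mg, rfl⟩ := ν.exists_measurable_map_eq
  obtain ⟨A, hA, e⟩ : nonN ∈ {c | ∃ A : Set unitInterval, volume A ≠ 0 ∧ #A = c} :=
    csInf_mem ⟨_, Set.univ, by simp, rfl⟩
  let Z : A → Set unitInterval := fun a => f ⁻¹' ((fun x => 1 * x * (g a)⁻¹) '' S)
  refine le_trans (b := #(range Z)) (csInf_le' ?_) (mk_range_le.trans e.le)
  refine ⟨range Z, ?_, ?_, rfl⟩
  · rintro _ ⟨a, rfl⟩
    exact le_antisymm ((Measure.le_map_apply mf.aemeasurable _).trans (hμ _ _).le) zero_le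
  · refine eq_univ_of_forall fun t => by_contra fun h => hA ?_
    refine measure_mono_null (t := g ⁻¹' ((fun x => (f t)⁻¹ * x * 1) '' Sᶜ)) (fun a ha => ?_)
      (le_antisymm ((Measure.le_map_apply mg.aemeasurable _).trans (hν _ _).le) zero_le)
    exact ⟨f t * g a, fun h' => h ⟨_, ⟨⟨a, ha⟩, rfl⟩, _, h', by simp⟩, by simp⟩

end Pool.Agent.Results.MP_8b9ec4_lc.NoPartition
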